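import Mathlib

/-!
Quadratic fields and squarefree integers: a point which is not rational determines the field.
-/

set_option autoImplicit false

namespace Pool.Agent.Seat74.FQ

theorem sqf_eq {D D' p q : ℤ} (hD : Squarefree D) (hD' : Squarefree D') (hq : q ≠ 0)
    (h : D * q ^ 2 = D' * p ^ 2) : D = D' := by
  have h1 : q ^ 2 ∣ (D' * p) ^ 2 := ⟨D * D', by linear_combination -D' * h⟩
  have h2 : q ∣ D' * p := (Int.pow_dvd_pow_iff two_ne_zero).1 h1
  obtain ⟨w, hw⟩ := h2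
  have h3 : D * D' = w ^ 2 := by
    have h4 : q ^ 2 * (D * D') = q ^ 2 * w ^ 2 := by
      have : (D' * p) ^ 2 = (q * w) ^ 2 := by rw [hw]
      linear_combination D' * h + this
    exact mul_left_cancel₀ (pow_ne_zero 2 hq) h4
  have h5 : D ∣ w := (hD.dvd_pow_iff_dvd two_ne_zero).1 ⟨D', h3.symm⟩
  obtain ⟨k, hk⟩ := h5
  have hD0 : D ≠ 0 := hD.ne_zero
  have h6 : D' = D * (k * k) := by
    have : D * D' = D * (D * (k * k)) := by rw [h3, hk]; ring
    exact mul_left_cancel₀ hD0 this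
  have h7 : IsUnit k := hD' k ⟨D, by rw [h6]; ring⟩
  have h8 : k * k = 1 := by
    rcases Int.isUnit_iff.1 h7 with rfl | rfl <;> norm_num
  rw [h6, h8, mul_one]

theorem rat_sq {D : ℤ} (hD : Squarefree D) (r : ℚ) (h : r ^ 2 = D) : D = 1 := by
  have hq : (r.den : ℤ) ≠ 0 := by exact_mod_cast r.den_nz
  refine sqf_eq (p := r.num) hD squarefree_one hq ?_
  have h1 : (r.num : ℚ) / r.den = r := r.num_div_den
  have hq' : (r.den : ℚ) ≠ 0 := by exact_mod_cast r.den_nz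
  rw [← h1, div_pow, div_eq_iff (pow_ne_zero 2 hq')] at h
  have h2 : ((D * (r.den : ℤ) ^ 2 : ℤ) : ℚ) = ((1 * r.num ^ 2 : ℤ) : ℚ) := by
    push_cast
    rw [one_mul, h]
  exact_mod_cast h2

theorem rat_mul_sq {D D' : ℤ} (hD : Squarefree D) (hD' : Squarefree D') (b : ℚ)
    (h : (D : ℚ) = b ^ 2 * D') : D = D' := by
  have hq : (b.den : ℤ) ≠ 0 := by exact_mod_cast b.den_nz
  refine sqf_eq (p := b.num) hD hD' hq ?_
  have hbq : b * (b.den : ℚ) = b.num := Rat.mul_den_eq_num b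
  have h3 : (D : ℚ) * (b.den : ℚ) ^ 2 = D' * (b.num : ℚ) ^ 2 := by
    rw [h]
    linear_combination (D' : ℚ) * (b * b.den + b.num) * hbq
  have h2 : ((D * (b.den : ℤ) ^ 2 : ℤ) : ℚ) = ((D' * b.num ^ 2 : ℤ) : ℚ) := by
    push_cast
    exact h3
  exact_mod_cast h2

/-- the same irrational number in two quadratic fields -/
theorem same {D D' : ℤ} (hD : Squarefree D) (hD' : Squarefree D') (h1' : D' ≠ 1)
    {S S' : ℂ} (hS : S ^ 2 = D) (hS' : S' ^ 2 = D') {u v u' v' : ℚ} (hv : v ≠ 0)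
    (hv' : v' ≠ 0) (h : (u : ℂ) + v * S = u' + v' * S') : D = D' := by
  have hvC : (v : ℂ) ≠ 0 := by exact_mod_cast hv
  obtain ⟨a, ha⟩ : ∃ a : ℚ, a = (u' - u) / v := ⟨_, rfl⟩
  obtain ⟨b, hb⟩ : ∃ b : ℚ, b = v' / v := ⟨_, rfl⟩
  have hSe : S = (a : ℂ) + b * S' := by
    rw [ha, hb]
    push_cast
    field_simp
    linear_combination h
  have h2 : (D : ℂ) = a ^ 2 + b ^ 2 * D' + 2 * a * b * S' := by
    rw [← hS, ← hS', hSe]
    ring
  have hb0 : b ≠ 0 := by rw [hb]; exact div_ne_zero hv' hv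
  rcases eq_or_ne a 0 with h0 | h0
  · refine rat_mul_sq hD hD' b ?_
    have h3 : (D : ℂ) = b ^ 2 * D' := by
      rw [h2, h0]
      push_cast
      ring
    exact_mod_cast h3
  · exfalso
    apply h1'
    refine rat_sq hD' ((D - a ^ 2 - b ^ 2 * D') / (2 * a * b)) ?_
    have h3 : S' = (((D : ℚ) - a ^ 2 - b ^ 2 * D') / (2 * a * b) : ℚ) := by
      push_cast
      have e1 : (a : ℂ) ≠ 0 := by exact_mod_cast h0
      have e2 : (b : ℂ) ≠ 0 := by exact_mod_cast hb0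
      rw [eq_div_iff (mul_ne_zero (mul_ne_zero two_ne_zero e1) e2)]
      linear_combination -h2
    have h4 : ((((D : ℚ) - a ^ 2 - b ^ 2 * D') / (2 * a * b) : ℚ) : ℂ) ^ 2 = D' := by
      rw [← h3, hS']
    exact_mod_cast h4

theorem coords {K : Type} [Field K] [NumberField K] (hK : Module.finrank ℚ K = 2) {s : K}
    (hs : ∀ r : ℚ, s ≠ r) (ρ : K) : ∃ u v : ℚ, ρ = u + v * s := by
  have hli : LinearIndependent ℚ ![(1 : K), s] := by
    rw [LinearIndependent.pair_iff]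
    intro a b hab
    have hab' : (a : K) + b * s = 0 := by
      simpa [Algebra.smul_def] using hab
    have hb : b = 0 := by
      by_contra hb
      apply hs (-a / b)
      have hb' : (b : K) ≠ 0 := by exact_mod_cast hb
      push_cast
      rw [eq_div_iff hb']
      linear_combination hab'
    rw [hb] at hab'
    refine ⟨?_, hb⟩
    have : (a : K) = 0 := by simpa using hab'
    exact_mod_cast this
  have hsp : Submodule.span ℚ (Set.range ![(1 : K), s]) = ⊤ :=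
    hli.span_eq_top_of_card_eq_finrank (by rw [hK]; simp)
  have hρ : ρ ∈ Submodule.span ℚ (Set.range ![(1 : K), s]) := by rw [hsp]; trivial
  rw [Matrix.range_cons, Matrix.range_cons, Matrix.range_empty, Set.union_empty,
    Set.singleton_union, Submodule.mem_span_pair] at hρ
  obtain ⟨u, v, h⟩ := hρ
  exact ⟨u, v, by rw [← h]; simp [Algebra.smul_def]⟩

/-- `W` is a point of the projective plane over `ℚ(√D)`, `D ≠ 1` squarefree, and not rational -/
def Quad (D : ℤ) (W : Submodule ℂ (Fin 3 → ℂ)) : Prop :=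
  Squarefree D ∧ D ≠ 1 ∧ ∃ (K : Type) (_ : Field K) (_ : NumberField K),
    Module.finrank ℚ K = 2 ∧ (∃ s : K, s ^ 2 = D) ∧ ∃ (σ : K →+* ℂ) (x y z : K), z ≠ 0 ∧
      ¬ (∃ r t : ℚ, x = r * z ∧ y = t * z) ∧ W = Submodule.span ℂ {![σ x, σ y, -σ z]}

theorem irr_form {D : ℤ} (hD : Squarefree D) (h1 : D ≠ 1) {K : Type} [Field K] [NumberField K]
    (hK : Module.finrank ℚ K = 2) (hs : ∃ s : K, s ^ 2 = D) (σ : K →+* ℂ) (ρ : K)
    (hρ : ∀ r : ℚ, ρ ≠ r) : ∃ (S : ℂ) (u v : ℚ), S ^ 2 = D ∧ v ≠ 0 ∧ σ ρ = u + v * S := by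
  obtain ⟨s, hs⟩ := hs
  have hs' : ∀ r : ℚ, s ≠ r := by
    rintro r rfl
    exact h1 (rat_sq hD r (by exact_mod_cast hs))
  obtain ⟨u, v, h⟩ := coords hK hs' ρ
  refine ⟨σ s, u, v, by rw [← map_pow, hs, map_intCast], ?_, by
    rw [h, map_add, map_mul, map_ratCast, map_ratCast]⟩
  rintro rfl
  exact hρ u (by rw [h]; simp)

theorem Quad.inj {D D' : ℤ} {W : Submodule ℂ (Fin 3 → ℂ)} (h : Quad D W) (h' : Quad D' W) :
    D = D' := by
  obtain ⟨hD, h1, K, _, _, hK, hs, σ, x, y, z, hz, hr, hW⟩ := h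
  obtain ⟨hD', h1', K', _, _, hK', hs', σ', x', y', z', hz', hr', hW'⟩ := h'
  have hσz : σ z ≠ 0 := (map_ne_zero σ).2 hz
  have hσz' : σ' z' ≠ 0 := (map_ne_zero σ').2 hz'
  have hmem : ![σ x, σ y, -σ z] ∈ Submodule.span ℂ {![σ' x', σ' y', -σ' z']} := by
    rw [← hW', hW]
    exact Submodule.mem_span_singleton_self _
  obtain ⟨t, ht⟩ := Submodule.mem_span_singleton.1 hmem
  have e0 := congrFun ht 0
  have e1 := congrFun ht 1
  have e2 := congrFun ht 2
  simp only [Pi.smul_apply, smul_eq_mul, Matrix.cons_val_zero, Matrix.cons_val_one,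
    Matrix.cons_val] at e0 e1 e2
  have ht0 : t ≠ 0 := by
    rintro rfl
    rw [zero_mul] at e2
    exact hσz (by linear_combination e2)
  have hx : σ (x / z) = σ' (x' / z') := by
    rw [map_div₀, map_div₀, ← e0]
    have e3 : σ z = t * σ' z' := by linear_combination e2
    rw [e3, mul_div_mul_left _ _ ht0]
  have hy : σ (y / z) = σ' (y' / z') := by
    rw [map_div₀, map_div₀, ← e1]
    have e3 : σ z = t * σ' z' := by linear_combination e2
    rw [e3, mul_div_mul_left _ _ ht0]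
  have key : ∀ (ρ : K) (ρ' : K'), σ ρ = σ' ρ' → (∀ r : ℚ, ρ ≠ r) → D = D' := by
    intro ρ ρ' hρ hirr
    have hirr' : ∀ r : ℚ, ρ' ≠ r := by
      rintro r rfl
      apply hirr r
      apply σ.injective
      rw [hρ, map_ratCast, map_ratCast]
    obtain ⟨S, u, v, hS, hv, hu⟩ := irr_form hD h1 hK hs σ ρ hirr
    obtain ⟨S', u', v', hS', hv', hu'⟩ := irr_form hD' h1' hK' hs' σ' ρ' hirr'
    exact same hD hD' h1' hS hS' hv hv' (by rw [← hu, ← hu', hρ])
  by_cases hx1 : ∃ r : ℚ, x / z = r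
  · by_cases hy1 : ∃ r : ℚ, y / z = r
    · exfalso
      obtain ⟨r, hr1⟩ := hx1
      obtain ⟨t', ht1⟩ := hy1
      exact hr ⟨r, t', (div_eq_iff hz).1 hr1, (div_eq_iff hz).1 ht1⟩
    · push Not at hy1
      exact key _ _ hy hy1
  · push Not at hx1
    exact key _ _ hx hx1

end Pool.Agent.Seat74.FQ
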