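import Pool.Agent.Results.MP_ef6a16_nt.FewPointsAllFields

/-!
Tuples of numbers which generate a group with a solution of Fermat's equation: a monomial takes one of few values.
-/

set_option autoImplicit false

namespace Pool.Agent.Seat74.FQ

open Pool.Agent.Results.MP_ef6a16_nt.FewPointsAllFields

/-- The numbers `α 1, …, α P` are nonzero elements of absolute height at most `Y ^ E` of a number field `K ⊂ ℂ` of degree
at most `κ` (the field is not fixed) in which there is a solution of `a ^ p + b ^ p + z ^ p = 0`, `R ≤ p ≤ Y ^ δ`, with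
arbitrary `z ≠ 0` and with `a`, `b` in the group generated by the `α j`, with exponents of absolute value at most
`Y ^ δ`. -/
def BadTuple (P κ R E : ℕ) (δ : ℝ) (Y : ℕ) (α : Fin P → ℂ) : Prop :=
  ∃ (K : Type) (_ : Field K) (_ : NumberField K) (σ : K →+* ℂ) (w : Fin P → K) (f g : Fin P → ℤ)
    (z : K) (p : ℕ), Module.finrank ℚ K ≤ κ ∧ R ≤ p ∧ (p : ℝ) ≤ (Y : ℝ) ^ δ ∧
    (∀ j, |(f j : ℝ)| ≤ (Y : ℝ) ^ δ) ∧ (∀ j, |(g j : ℝ)| ≤ (Y : ℝ) ^ δ) ∧
    (∀ j, w j ≠ 0 ∧ Height.mulHeight₁ (w j) ≤ ((Y : ℝ) ^ E) ^ Module.finrank ℚ K) ∧ z ≠ 0 ∧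
    (∀ j, α j = σ (w j)) ∧ (∏ j, w j ^ f j) ^ p + (∏ j, w j ^ g j) ^ p + z ^ p = 0

theorem no_root_two {K : Type} [Field K] [NumberField K] {p : ℕ}
    (hp : Module.finrank ℚ K < p) (t : K) : t ^ p ≠ -2 := by
  intro h
  have h1 : Algebra.norm ℚ (t ^ p) = (-2 : ℚ) ^ Module.finrank ℚ K := by
    rw [h]
    have h2 : (-2 : K) = algebraMap ℚ K (-2) := by simp
    rw [h2, Algebra.norm_algebraMap]
  rw [map_pow] at h1
  have hd : 0 < Module.finrank ℚ K := Module.finrank_pos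
  have hn0 : Algebra.norm ℚ t ≠ 0 := by
    intro h0
    rw [h0, zero_pow (by omega)] at h1
    exact pow_ne_zero _ (by norm_num) h1.symm
  have h2 := congrArg (padicValRat 2) h1
  rw [padicValRat.pow, padicValRat.pow, padicValRat.neg] at h2
  have h3 : padicValRat 2 (2 : ℚ) = 1 := padicValRat.self (by norm_num)
  rw [h3, mul_one] at h2
  have h4 : (p : ℤ) ∣ (Module.finrank ℚ K : ℤ) := ⟨_, h2.symm⟩
  have h5 : p ∣ Module.finrank ℚ K := by exact_mod_cast h4
  exact absurd (Nat.le_of_dvd hd h5) (by omega)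

/-- **A monomial of a bad tuple takes one of few values.** -/
theorem bad_ratio (P κ E : ℕ) (ε : ℝ) (hε : 0 < ε) : ∃ (R : ℕ) (δ : ℝ), 0 < δ ∧ δ ≤ ε ∧
    ∀ Y : ℕ, 1 ≤ Y → ∃ B : Finset ℂ, (B.card : ℝ) ≤ (Y : ℝ) ^ ε ∧
      ∀ α, BadTuple P κ R E δ Y α → ∃ h : Fin P → ℤ, h ≠ 0 ∧
        (∀ j, |(h j : ℝ)| ≤ 2 * (Y : ℝ) ^ δ) ∧ ∏ j, α j ^ h j ∈ B ∧ ∀ j, α j ≠ 0 := by
  classical
  obtain ⟨R, δ, hδ, H⟩ := part2 P κ (ε / (E + 1)) (by positivity)
  refine ⟨max R (κ + 1), min δ ε, lt_min hδ hε, min_le_right _ _, fun Y hY => ?_⟩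
  have hY1 : (1 : ℝ) ≤ Y := by exact_mod_cast hY
  obtain ⟨hfin, hcard⟩ := H (Y ^ (E + 1)) (Nat.one_le_pow _ _ hY)
  have hZ : (((Y ^ (E + 1) : ℕ) : ℝ)) = (Y : ℝ) ^ (E + 1) := by push_cast; rfl
  have hZε : (((Y ^ (E + 1) : ℕ) : ℝ)) ^ (ε / (E + 1)) = (Y : ℝ) ^ ε := by
    rw [hZ, ← Real.rpow_natCast, ← Real.rpow_mul (by positivity)]
    congr 1
    push_cast
    field_simp
  rw [hZε] at hcard
  have hYZ : (Y : ℝ) ≤ (((Y ^ (E + 1) : ℕ) : ℝ)) := by
    rw [hZ]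
    exact le_self_pow₀ hY1 (Nat.succ_ne_zero E)
  have hYδ : (Y : ℝ) ^ (min δ ε) ≤ (((Y ^ (E + 1) : ℕ) : ℝ)) ^ δ :=
    (Real.rpow_le_rpow_of_exponent_le hY1 (min_le_left _ _)).trans
      (Real.rpow_le_rpow (by positivity) hYZ hδ.le)
  -- the ratio of the first two coordinates
  obtain ⟨rt, hrt⟩ : ∃ rt : Submodule ℂ (Fin 3 → ℂ) → ℂ, ∀ a b c : ℂ, b ≠ 0 →
      rt (Submodule.span ℂ {![a, b, c]}) = a / b := by
    refine ⟨fun W => if h : ∃ r : ℂ, ∃ a b c : ℂ, b ≠ 0 ∧ W = Submodule.span ℂ {![a, b, c]} ∧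
      r = a / b then h.choose else 0, fun a b c hb => ?_⟩
    have hex : ∃ r : ℂ, ∃ a' b' c' : ℂ, b' ≠ 0 ∧
        Submodule.span ℂ {![a, b, c]} = Submodule.span ℂ {![a', b', c']} ∧ r = a' / b' :=
      ⟨_, a, b, c, hb, rfl, rfl⟩
    simp only [dif_pos hex]
    obtain ⟨a', b', c', hb', hW, hr⟩ := hex.choose_spec
    rw [hr]
    have hmem : ![a, b, c] ∈ Submodule.span ℂ {![a', b', c']} := by
      rw [← hW]
      exact Submodule.mem_span_singleton_self _
    obtain ⟨t, ht⟩ := Submodule.mem_span_singleton.1 hmem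
    have e0 := congrFun ht 0
    have e1 := congrFun ht 1
    simp only [Pi.smul_apply, smul_eq_mul, Matrix.cons_val_zero, Matrix.cons_val_one] at e0 e1
    have ht0 : t ≠ 0 := by
      rintro rfl
      rw [zero_mul] at e1
      exact hb e1.symm
    rw [← e0, ← e1, mul_div_mul_left _ _ ht0]
  refine ⟨hfin.toFinset.image rt, ?_, ?_⟩
  · refine le_trans ?_ hcard
    have h1 : (hfin.toFinset.image rt).card ≤ hfin.toFinset.card := Finset.card_image_le
    rw [Set.ncard_eq_toFinset_card _ hfin]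
    exact_mod_cast h1
  · rintro α ⟨K, _, _, σ, w, f, g, z, p, h1, h2, h3, h4, h5, h6, h7, h8, h9⟩
    have hα0 : ∀ j, α j ≠ 0 := fun j => by
      rw [h8 j]
      exact (map_ne_zero σ).2 (h6 j).1
    have hkp : Module.finrank ℚ K < p := by
      have := (le_max_right R (κ + 1)).trans h2
      omega
    have hprod : ∏ j, α j ^ (f j - g j) = σ (∏ j, w j ^ f j) / σ (∏ j, w j ^ g j) := by
      rw [map_prod, map_prod, ← Finset.prod_div_distrib]
      refine Finset.prod_congr rfl fun j _ => ?_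
      rw [map_zpow₀, map_zpow₀, ← h8 j, zpow_sub₀ (hα0 j)]
    refine ⟨fun j => f j - g j, ?_, ?_, ?_, hα0⟩
    · intro h0
      have hfg : f = g := by
        funext j
        have := congrFun h0 j
        simp only [Pi.zero_apply] at this
        omega
      rw [hfg] at h9
      have hg0 : ∏ j, w j ^ g j ≠ 0 := Finset.prod_ne_zero_iff.2 fun j _ => zpow_ne_zero _ (h6 j).1
      apply no_root_two hkp (z / ∏ j, w j ^ g j)
      rw [div_pow, div_eq_iff (pow_ne_zero _ hg0)]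
      linear_combination h9
    · intro j
      push_cast
      calc |(f j : ℝ) - g j| ≤ |(f j : ℝ)| + |(g j : ℝ)| := abs_sub _ _
        _ ≤ 2 * (Y : ℝ) ^ (min δ ε) := by linarith [h4 j, h5 j]
    · rw [hprod, Finset.mem_image]
      refine ⟨Submodule.span ℂ {![σ (∏ j, w j ^ f j), σ (∏ j, w j ^ g j), σ z]}, ?_,
        hrt _ _ _ ((map_ne_zero σ).2 (Finset.prod_ne_zero_iff.2 fun j _ =>
          zpow_ne_zero _ (h6 j).1))⟩
      rw [Set.Finite.mem_toFinset]
      refine ⟨_, _, _, ⟨K, inferInstance, inferInstance, σ, w, f, g, z, p, h1,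
        (le_max_left _ _).trans h2, h3.trans hYδ, fun j => (h4 j).trans hYδ,
        fun j => (h5 j).trans hYδ, fun j => ⟨(h6 j).1, (h6 j).2.trans ?_⟩, h7, rfl, rfl, rfl, h9⟩,
        rfl⟩
      refine pow_le_pow_left₀ (by positivity) ?_ _
      rw [hZ]
      exact pow_le_pow_right₀ hY1 (Nat.le_succ E)

/-- the exponent vectors -/
noncomputable def box (P : ℕ) (M : ℕ) : Finset (Fin P → ℤ) :=
  Fintype.piFinset fun _ => Finset.Icc (-(M : ℤ)) M

theorem mem_box {P M : ℕ} {h : Fin P → ℤ} (hh : ∀ j, |(h j : ℝ)| ≤ M) : h ∈ box P M := by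
  rw [box, Fintype.mem_piFinset]
  intro j
  have h1 := abs_le.1 (hh j)
  rw [Finset.mem_Icc]
  constructor
  · exact_mod_cast h1.1
  · exact_mod_cast h1.2

theorem card_box (P M : ℕ) : (box P M).card = (2 * M + 1) ^ P := by
  rw [box, Fintype.card_piFinset]
  simp only [Int.card_Icc, Finset.prod_const, Finset.card_univ, Fintype.card_fin]
  congr 1
  omega

end Pool.Agent.Seat74.FQ
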